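import Pool.Agent.H416R3.TD.Sep

/-!
# Shallow circuits have equivalent circuits of small tree-depth
-/

set_option autoImplicit false

open Finset

namespace Pool.Agent.H416R3.TD

open Pool.Agent.H540R2

variable {n : ℕ}

lemma TreeDepth.congr {C C' : Circuit n} {U : Finset ℕ} {d : ℕ} (h : TreeDepth C U d) :
    (∀ i ∈ U, C'.gate i = C.gate i) → TreeDepth C' U d := by
  induction h with
  | empty d => exact fun _ => TreeDepth.empty d
  | union U V d _ _ hUV hJ ih1 ih2 =>
    intro hg
    have hU : ∀ i ∈ U, C'.gate i = C.gate i := fun i hi => hg i (Finset.mem_union_left _ hi)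
    have hV : ∀ i ∈ V, C'.gate i = C.gate i := fun i hi => hg i (Finset.mem_union_right _ hi)
    refine TreeDepth.union U V d (ih1 hU) (ih2 hV) hUV ?_
    intro i hi j hj
    unfold Joined
    rw [hU i hi, hV j hj]
    exact hJ i hi j hj
  | delete U d g hgU _ ih =>
    intro hg
    exact TreeDepth.delete U d g hgU (ih fun i hi => hg i (Finset.mem_insert_of_mem hi))

/-- `P'` arises from `P` by adding a copy of a formula for `f` of depth `D` -/
structure Good (P P' : Circuit n) (f : BF n) (D : ℕ) : Prop where
  ext : Circuit.Ext P P'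
  size : P'.size + 1 ≤ P.size + 2 ^ (D + 1)
  eval : ∀ x, P'.eval x = f x
  depth : P'.depth ≤ D + 1
  td : TreeDepth P' (Ico P.size P'.size) (D + 1)
  wires : ∀ i, P.size ≤ i → i < P'.size → ∀ j, (P'.gate i).wires j ≠ 0 → P.size ≤ j
  out : ∀ j, P'.out.wires j ≠ 0 → P.size ≤ j

lemma Good.mono {P P' : Circuit n} {f : BF n} {D E : ℕ} (h : Good P P' f D) (hE : D ≤ E) :
    Good P P' f E where
  ext := h.ext
  size := h.size.trans (Nat.add_le_add_left
    (Nat.pow_le_pow_right (by norm_num) (by omega)) _)
  eval := h.eval
  depth := h.depth.trans (by omega)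
  td := h.td.mono _ (by omega)
  wires := h.wires
  out := h.out

lemma Good.step (g : Node n → Node n → Gate n) (op : Bool → Bool → Bool)
    (hw : ∀ a b j, (g a b).wires j = a.wires j + b.wires j)
    (he : ∀ a b x v, (g a b).eval x v = op (a.eval x v) (b.eval x v))
    (hd : ∀ a b d, (g a b).depth d = max (a.depth d) (b.depth d) + 1)
    {P P1 P2 : Circuit n} {f1 f2 : BF n} {D : ℕ} (h1 : Good P P1 f1 D) (h2 : Good P1 P2 f2 D) :
    ∃ P3 : Circuit n, Good P P3 (fun x => op (f1 x) (f2 x)) (D + 1) := by
  have hPP1 : P.size ≤ P1.size := h1.ext.1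
  have hP1P2 : P1.size ≤ P2.size := h2.ext.1
  have ho1 : ∀ j, P1.out.wires j ≠ 0 → j < P2.size := fun j hj =>
    lt_of_lt_of_le (P1.out_lt j hj) hP1P2
  have hg : ∀ j, (g P1.out P2.out).wires j ≠ 0 → j < P2.size := by
    intro j hj
    rw [hw] at hj
    by_cases h : P1.out.wires j = 0
    · exact P2.out_lt j (by omega)
    · exact ho1 j h
  obtain ⟨P3, hP3⟩ : ∃ P3, P3 = P2.add (g P1.out P2.out) hg := ⟨_, rfl⟩
  have hs3 : P3.size = P2.size + 1 := by rw [hP3]; rfl
  have e3 : Circuit.Ext P2 P3 := by rw [hP3]; exact P2.add_ext _ _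
  have g3 : P3.gate P2.size = g P1.out P2.out := by
    rw [hP3]; exact Function.update_self _ _ _
  have o3 : P3.out = .gate P2.size := by rw [hP3]; rfl
  have gl : ∀ i < P2.size, P3.gate i = P2.gate i := e3.2
  have gl1 : ∀ i < P1.size, P3.gate i = P1.gate i := fun i hi => by
    rw [gl i (lt_of_lt_of_le hi hP1P2), h2.ext.2 i hi]
  refine ⟨P3, ?_, ?_, ?_, ?_, ?_, ?_, ?_⟩
  · exact (h1.ext.trans h2.ext).trans e3
  · have a1 := h1.size
    have a2 := h2.size
    rw [hs3, pow_succ 2 (D + 1)]
    omega
  · intro x
    rw [hP3, Circuit.add_eval, he]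
    rw [h2.ext.node_eval x P1.out_lt]
    have b1 : P1.out.eval x (P1.val x) = P1.eval x := rfl
    have b2 : P2.out.eval x (P2.val x) = P2.eval x := rfl
    rw [b1, b2, h1.eval x, h2.eval x]
  · rw [hP3, Circuit.add_depth, hd, h2.ext.node_depth P1.out_lt]
    have b1 : P1.out.depth P1.gateDepth = P1.depth := rfl
    have b2 : P2.out.depth P2.gateDepth = P2.depth := rfl
    rw [b1, b2]
    have := h1.depth
    have := h2.depth
    omega
  · have t1 : TreeDepth P3 (Ico P.size P1.size) (D + 1) :=
      h1.td.congr fun i hi => gl1 i (Finset.mem_Ico.mp hi).2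
    have t2 : TreeDepth P3 (Ico P1.size P2.size) (D + 1) :=
      h2.td.congr fun i hi => gl i (Finset.mem_Ico.mp hi).2
    have hdis : Disjoint (Ico P.size P1.size) (Ico P1.size P2.size) := by
      rw [Finset.disjoint_left]
      intro i hi hi2
      rw [Finset.mem_Ico] at hi hi2
      omega
    have t3 := TreeDepth.union _ _ (D + 1) t1 t2 hdis (by
      intro i hi j hj
      rw [Finset.mem_Ico] at hi hj
      unfold Joined
      rw [gl1 i hi.2, gl j hj.2]
      rintro (h | h)
      · have := P1.gate_lt i hi.2 j h
        omega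
      · have := h2.wires j hj.1 hj.2 i h
        omega)
    have hunion : Ico P.size P1.size ∪ Ico P1.size P2.size = Ico P.size P2.size := by
      ext i
      rw [Finset.mem_union, Finset.mem_Ico, Finset.mem_Ico, Finset.mem_Ico]
      omega
    rw [hunion] at t3
    have hins : Ico P.size P3.size = insert P2.size (Ico P.size P2.size) := by
      ext i
      rw [Finset.mem_insert, Finset.mem_Ico, Finset.mem_Ico, hs3]
      omega
    rw [hins]
    exact TreeDepth.delete _ _ _ (by rw [Finset.mem_Ico]; omega) t3
  · intro i hi1 hi2 j hj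
    rw [hs3] at hi2
    by_cases c1 : i < P1.size
    · rw [gl1 i c1] at hj
      exact h1.wires i hi1 c1 j hj
    · by_cases c2 : i < P2.size
      · rw [gl i c2] at hj
        have := h2.wires i (by omega) c2 j hj
        omega
      · have c3 : i = P2.size := by omega
        rw [c3, g3, hw] at hj
        by_cases c4 : P1.out.wires j = 0
        · have := h2.out j (by omega)
          omega
        · exact h1.out j c4
  · intro j hj
    rw [o3] at hj
    have := wires_eq hj
    have hj2 : P2.size = j := by injection this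
    omega

lemma buildTD (F : Fm n) : ∀ P : Circuit n, ∃ P' : Circuit n, Good P P' F.eval F.depth := by
  induction F with
  | lit i b =>
    intro P
    cases b with
    | true =>
      have hc : ∀ j, (Node.var i : Node n).wires j ≠ 0 → j < P.size := fun j hj => absurd rfl hj
      refine ⟨P.setOut (.var i) hc, P.setOut_ext _ _, ?_, ?_, ?_, ?_, ?_, ?_⟩
      · show P.size + 1 ≤ _
        simp only [Fm.depth]; norm_num
      · intro x; rw [Circuit.setOut_eval]; simp [Fm.eval, Node.eval]
      · rw [Circuit.setOut_depth]; simp [Node.depth]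
      · have h0 : Ico P.size (P.setOut (.var i) hc).size = ∅ := Finset.Ico_self _
        rw [h0]
        exact TreeDepth.empty _
      · intro k hk1 hk2
        exact absurd (lt_of_lt_of_le hk2 (show (P.setOut (.var i) hc).size ≤ P.size from le_rfl))
          (by omega)
      · intro j hj
        exact absurd rfl hj
    | false =>
      have hc : ∀ j, (Gate.not (Node.var i) : Gate n).wires j ≠ 0 → j < P.size :=
        fun j hj => absurd rfl hj
      refine ⟨P.add (.not (.var i)) hc, P.add_ext _ _, ?_, ?_, ?_, ?_, ?_, ?_⟩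
      · show P.size + 1 + 1 ≤ _
        simp only [Fm.depth]; norm_num
      · intro x; rw [Circuit.add_eval]; simp [Fm.eval, Gate.eval, Node.eval]
      · rw [Circuit.add_depth]; simp [Gate.depth, Node.depth, Fm.depth]
      · have h0 : Ico P.size (P.add (.not (.var i)) hc).size = insert P.size ∅ := by
          show Ico P.size (P.size + 1) = _
          ext k
          rw [Finset.mem_Ico, Finset.mem_insert]
          simp
          omega
        rw [h0]
        exact TreeDepth.delete ∅ 0 P.size (Finset.notMem_empty _) (TreeDepth.empty 0)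
      · intro k hk1 hk2 j hj
        have hk3 : k < P.size + 1 := hk2
        have hk : k = P.size := by omega
        have hg : (P.add (.not (.var i)) hc).gate P.size = .not (.var i) :=
          Function.update_self _ _ _
        rw [hk, hg] at hj
        exact absurd rfl hj
      · intro j hj
        have h2 : (P.add (.not (.var i)) hc).out = .gate P.size := rfl
        rw [h2] at hj
        have := wires_eq hj
        have hj2 : P.size = j := by injection this
        omega
  | const b =>
    intro P
    have hc : ∀ j, (Node.const b : Node n).wires j ≠ 0 → j < P.size := fun j hj => absurd rfl hj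
    refine ⟨P.setOut (.const b) hc, P.setOut_ext _ _, ?_, ?_, ?_, ?_, ?_, ?_⟩
    · show P.size + 1 ≤ _
      simp only [Fm.depth]; norm_num
    · intro x; rw [Circuit.setOut_eval]; simp [Fm.eval, Node.eval]
    · rw [Circuit.setOut_depth]; simp [Node.depth]
    · have h0 : Ico P.size (P.setOut (.const b) hc).size = ∅ := Finset.Ico_self _
      rw [h0]
      exact TreeDepth.empty _
    · intro k hk1 hk2
      exact absurd (lt_of_lt_of_le hk2 (show (P.setOut (.const b) hc).size ≤ P.size from le_rfl))
        (by omega)
    · intro j hj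
      exact absurd rfl hj
  | and F G hF hG =>
    intro P
    obtain ⟨P1, h1⟩ := hF P
    obtain ⟨P2, h2⟩ := hG P1
    exact Good.step Gate.and (fun p q => p && q) (fun _ _ _ => rfl) (fun _ _ _ _ => rfl)
      (fun _ _ _ => rfl) (h1.mono (le_max_left F.depth G.depth))
      (h2.mono (le_max_right F.depth G.depth))
  | or F G hF hG =>
    intro P
    obtain ⟨P1, h1⟩ := hF P
    obtain ⟨P2, h2⟩ := hG P1
    exact Good.step Gate.or (fun p q => p || q) (fun _ _ _ => rfl) (fun _ _ _ _ => rfl)
      (fun _ _ _ => rfl) (h1.mono (le_max_left F.depth G.depth))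
      (h2.mono (le_max_right F.depth G.depth))

lemma Dp_toTD {f : BF n} {D : ℕ} (h : Dp f D) :
    ∃ C : Circuit n, (∀ x, C.eval x = f x) ∧ C.depth ≤ D + 1 ∧ C.size < 2 ^ (D + 1) ∧
      TreeDepth C (range C.size) (D + 1) := by
  obtain ⟨F, hF, hf⟩ := h
  obtain ⟨P', g⟩ := buildTD F (Circuit.empty n)
  have g' := g.mono hF
  have h0 : (Circuit.empty n).size = 0 := rfl
  refine ⟨P', fun x => (g.eval x).trans (hf x), g'.depth, ?_, ?_⟩
  · have := g'.size
    rw [h0] at this
    omega
  · have := g'.td
    rw [h0, ← Finset.range_eq_Ico] at this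
    exact this

lemma Dp_node {C : Circuit n} (a : Node n) (D : ℕ) (hD : a.depth C.gateDepth ≤ D)
    (h : ∀ j, a = .gate j → Dp (fun x => C.val x j) (C.gateDepth j)) :
    Dp (fun x => a.eval x (C.val x)) D := by
  cases a with
  | var i => exact Dp.var i D
  | const b => exact Dp.const b D
  | gate j => exact (h j rfl).mono hD

lemma Dp_gate (C : Circuit n) : ∀ i, i < C.size → Dp (fun x => C.val x i) (C.gateDepth i) := by
  intro i
  induction i using Nat.strong_induction_on with
  | _ i ih =>
    intro hi
    rw [C.gateDepth_gate hi]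
    have hv : (fun x => C.val x i) = fun x => (C.gate i).eval x (C.val x) := by
      funext x; exact C.val_gate hi x
    rw [hv]
    have hlt := C.gate_lt i hi
    have key : ∀ a : Node n, (∀ j, a.wires j ≠ 0 → (C.gate i).wires j ≠ 0) →
        ∀ D, a.depth C.gateDepth ≤ D → Dp (fun x => a.eval x (C.val x)) D := by
      intro a ha D hD
      refine Dp_node a D hD fun j hj => ?_
      have hwj : a.wires j ≠ 0 := by rw [hj]; simp [Node.wires]
      have hji := hlt j (ha j hwj)
      exact ih j hji (hji.trans hi)
    cases hg : C.gate i with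
    | and a b =>
      rw [hg] at key
      exact (key a (fun j hj => by simp only [Gate.wires]; omega) _ (le_max_left _ _)).and
        (key b (fun j hj => by simp only [Gate.wires]; omega) _ (le_max_right _ _))
    | or a b =>
      rw [hg] at key
      exact (key a (fun j hj => by simp only [Gate.wires]; omega) _ (le_max_left _ _)).or
        (key b (fun j hj => by simp only [Gate.wires]; omega) _ (le_max_right _ _))
    | not a =>
      rw [hg] at key
      exact ((key a (fun j hj => hj) _ le_rfl).not).mono (Nat.le_succ _)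

lemma Dp_circuit (C : Circuit n) : Dp C.eval C.depth := by
  refine Dp_node C.out C.depth le_rfl fun j hj => Dp_gate C j (C.out_lt j ?_)
  rw [hj]
  simp [Node.wires]

/-- circuits of depth `D` have equivalent circuits of tree-depth at most `D + 1` -/
theorem shallow (C : Circuit n) : ∃ C' : Circuit n, C.Equiv C' ∧ C'.depth ≤ C.depth + 1 ∧
    C'.size < 2 ^ (C.depth + 1) ∧ TreeDepth C' (range C'.size) (C.depth + 1) := by
  obtain ⟨C', h1, h2, h3, h4⟩ := Dp_toTD (Dp_circuit C)
  exact ⟨C', fun x => (h1 x).symm, h2, h3, h4⟩

end Pool.Agent.H416R3.TD
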