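import Mathlib
import Pool.Agent.H540R2.Circ

/-!
# Tree-depth of a Boolean circuit: definitions
-/

set_option autoImplicit false

namespace Pool.Agent.H416R3.TD

open Pool.Agent.H540R2

variable {n : ℕ}

/-- There is a wire between gate `i` and gate `j` (in one of the two directions). -/
def Joined (C : Circuit n) (i j : ℕ) : Prop := (C.gate i).wires j ≠ 0 ∨ (C.gate j).wires i ≠ 0

/-- `TreeDepth C U d`: the undirected graph formed by the gates in the finite set `U` and the
wires between them has tree-depth at most `d`. The three rules are those of the recursive
definition of tree-depth: the empty graph has tree-depth at most any `d`; if two disjoint sets of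
gates without wires between them have tree-depth at most `d` then so has their union; adding one
gate (with arbitrary wires) increases the tree-depth by at most one. -/
inductive TreeDepth (C : Circuit n) : Finset ℕ → ℕ → Prop
  | empty (d : ℕ) : TreeDepth C ∅ d
  | union (U V : Finset ℕ) (d : ℕ) : TreeDepth C U d → TreeDepth C V d → Disjoint U V →
      (∀ i ∈ U, ∀ j ∈ V, ¬ Joined C i j) → TreeDepth C (U ∪ V) d
  | delete (U : Finset ℕ) (d g : ℕ) : g ∉ U → TreeDepth C U d → TreeDepth C (insert g U) (d + 1)

end Pool.Agent.H416R3.TD
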