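import Pool.Agent.H416R3.TD.Main

/-!
# The bound of Khrapchenko for circuits of small tree-depth
-/

set_option autoImplicit false

open Finset

namespace Pool.Agent.H416R3.TD

open Pool.Agent.H540R2

variable {n : ℕ}

/-- the number of pairs `(x, y)`, `x ∈ A`, `y ∈ B`, that differ in exactly one coordinate -/
noncomputable def edges (A B : Finset (Fin n → Bool)) : ℕ := by
  classical
  exact ((A ×ˢ B).filter (fun p => ∃ i, p.2 = Function.update p.1 i (!(p.1 i)))).card

/-- the parity of the number of ones -/
def par (x : Fin n → Bool) : Bool := decide ((∑ i, if x i then (1 : ZMod 2) else 0) = 1)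

lemma edges_union_right (A B1 B2 : Finset (Fin n → Bool)) [DecidableEq (Fin n → Bool)] :
    edges A (B1 ∪ B2) ≤ edges A B1 + edges A B2 := by
  classical
  unfold edges
  refine le_trans (Finset.card_le_card ?_) (Finset.card_union_le _ _)
  intro p hp
  simp only [Finset.mem_filter, Finset.mem_product, Finset.mem_union] at hp ⊢
  tauto

lemma edges_union_left (A1 A2 B : Finset (Fin n → Bool)) [DecidableEq (Fin n → Bool)] :
    edges (A1 ∪ A2) B ≤ edges A1 B + edges A2 B := by
  classical
  unfold edges
  refine le_trans (Finset.card_le_card ?_) (Finset.card_union_le _ _)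
  intro p hp
  simp only [Finset.mem_filter, Finset.mem_product, Finset.mem_union] at hp ⊢
  tauto

lemma cs (a b p q x y : ℕ) (h1 : a ^ 2 ≤ p * x) (h2 : b ^ 2 ≤ q * y) :
    (a + b) ^ 2 ≤ (p + q) * (x + y) := by
  have h3 : 2 * (a * b) ≤ p * y + q * x := by
    by_contra h
    push Not at h
    have h4 : (p * y + q * x) ^ 2 < (2 * (a * b)) ^ 2 := Nat.pow_lt_pow_left h (by norm_num)
    have h5 : a ^ 2 * b ^ 2 ≤ (p * x) * (q * y) := Nat.mul_le_mul h1 h2
    have h6 : 4 * ((p * y) * (q * x)) ≤ (p * y + q * x) ^ 2 := by
      zify
      nlinarith [sq_nonneg ((p : ℤ) * y - q * x)]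
    have h7 : (2 * (a * b)) ^ 2 = 4 * (a ^ 2 * b ^ 2) := by ring
    have h8 : (p * y) * (q * x) = (p * x) * (q * y) := by ring
    rw [h7] at h4
    rw [h8] at h6
    omega
  have h9 : (a + b) ^ 2 = a ^ 2 + 2 * (a * b) + b ^ 2 := by ring
  have h10 : (p + q) * (x + y) = p * x + (p * y + q * x) + q * y := by ring
  omega

lemma update_flip_eq {x : Fin n → Bool} {i k : Fin n}
    (h : (Function.update x k (!(x k))) i ≠ x i) : k = i := by
  by_contra hk
  rw [Function.update_of_ne (Ne.symm hk)] at h
  exact h rfl

/-- Khrapchenko -/
theorem khr (F : Fm n) : ∀ A B : Finset (Fin n → Bool), (∀ x ∈ A, F.eval x = true) →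
    (∀ x ∈ B, F.eval x = false) → (edges A B) ^ 2 ≤ (F.sz + 1) * (A.card * B.card) := by
  classical
  induction F with
  | lit i b =>
    intro A B hA hB
    have key : ∀ x ∈ A, ∀ y ∈ B, (∃ k, y = Function.update x k (!(x k))) →
        y = Function.update x i (!(x i)) := by
      rintro x hx y hy ⟨k, hk⟩
      have e1 := hA x hx
      have e2 := hB y hy
      simp only [Fm.eval] at e1 e2
      have hne : y i ≠ x i := by
        intro h
        rw [h, e1] at e2
        exact Bool.noConfusion e2
      rw [hk] at hne
      have := update_flip_eq hne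
      rw [this] at hk
      exact hk
    have h1 : edges A B ≤ A.card := by
      unfold edges
      refine Finset.card_le_card_of_injOn Prod.fst ?_ ?_
      · intro p hp
        simp only [Finset.coe_filter, Finset.mem_product, Set.mem_setOf_eq] at hp
        exact hp.1.1
      · intro p hp q hq hpq
        simp only [Finset.coe_filter, Finset.mem_product, Set.mem_setOf_eq] at hp hq
        have e1 := key p.1 hp.1.1 p.2 hp.1.2 hp.2
        have e2 := key q.1 hq.1.1 q.2 hq.1.2 hq.2
        refine Prod.ext hpq ?_
        rw [e1, e2, hpq]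
    have h2 : edges A B ≤ B.card := by
      unfold edges
      refine Finset.card_le_card_of_injOn Prod.snd ?_ ?_
      · intro p hp
        simp only [Finset.coe_filter, Finset.mem_product, Set.mem_setOf_eq] at hp
        exact hp.1.2
      · intro p hp q hq hpq
        simp only [Finset.coe_filter, Finset.mem_product, Set.mem_setOf_eq] at hp hq
        have e1 := key p.1 hp.1.1 p.2 hp.1.2 hp.2
        have e2 := key q.1 hq.1.1 q.2 hq.1.2 hq.2
        refine Prod.ext ?_ hpq
        rw [e1, e2] at hpq
        funext j
        by_cases hj : j = i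
        · have h3 := congrFun hpq i
          rw [Function.update_self, Function.update_self] at h3
          rw [hj]
          exact Bool.not_inj h3
        · have h3 := congrFun hpq j
          rw [Function.update_of_ne hj, Function.update_of_ne hj] at h3
          exact h3
    calc (edges A B) ^ 2 = edges A B * edges A B := sq _
      _ ≤ A.card * B.card := Nat.mul_le_mul h1 h2
      _ = _ := by simp [Fm.sz]
  | const b =>
    intro A B hA hB
    have h0 : edges A B = 0 := by
      unfold edges
      rw [Finset.card_eq_zero, Finset.filter_eq_empty_iff]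
      intro p hp
      rw [Finset.mem_product] at hp
      have e1 := hA p.1 hp.1
      have e2 := hB p.2 hp.2
      simp only [Fm.eval] at e1 e2
      rw [e1] at e2
      exact Bool.noConfusion e2
    rw [h0]
    simp
  | and F G hF hG =>
    intro A B hA hB
    have hA' : ∀ x ∈ A, F.eval x = true ∧ G.eval x = true := fun x hx => by
      have := hA x hx
      simpa [Fm.eval] using this
    have hB' : ∀ x ∈ B, F.eval x = true → G.eval x = false := fun x hx hf => by
      have := hB x hx
      simpa [Fm.eval, hf] using this
    have e1 := hF A (B.filter fun x => F.eval x = false) (fun x hx => (hA' x hx).1)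
      (fun x hx => (Finset.mem_filter.mp hx).2)
    have e2 := hG A (B.filter fun x => ¬ F.eval x = false) (fun x hx => (hA' x hx).2)
      (fun x hx => hB' x (Finset.mem_filter.mp hx).1 (by simpa using (Finset.mem_filter.mp hx).2))
    have e3 := edges_union_right A (B.filter fun x => F.eval x = false)
      (B.filter fun x => ¬ F.eval x = false)
    rw [Finset.filter_union_filter_not_eq] at e3
    have e4 := cs _ _ _ _ _ _ e1 e2
    have e5 := Finset.card_filter_add_card_filter_not (s := B) (fun x => F.eval x = false)
    rw [← Nat.mul_add, e5] at e4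
    calc (edges A B) ^ 2 ≤ _ := Nat.pow_le_pow_left e3 2
      _ ≤ _ := e4
      _ = _ := by simp only [Fm.sz]; ring
  | or F G hF hG =>
    intro A B hA hB
    have hB' : ∀ x ∈ B, F.eval x = false ∧ G.eval x = false := fun x hx => by
      have := hB x hx
      simpa [Fm.eval] using this
    have hA' : ∀ x ∈ A, F.eval x = false → G.eval x = true := fun x hx hf => by
      have := hA x hx
      simpa [Fm.eval, hf] using this
    have e1 := hF (A.filter fun x => F.eval x = true) B
      (fun x hx => (Finset.mem_filter.mp hx).2) (fun x hx => (hB' x hx).1)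
    have e2 := hG (A.filter fun x => ¬ F.eval x = true) B
      (fun x hx => hA' x (Finset.mem_filter.mp hx).1 (by simpa using (Finset.mem_filter.mp hx).2))
      (fun x hx => (hB' x hx).2)
    have e3 := edges_union_left (A.filter fun x => F.eval x = true)
      (A.filter fun x => ¬ F.eval x = true) B
    rw [Finset.filter_union_filter_not_eq] at e3
    have e4 := cs _ _ _ _ _ _ e1 e2
    have e5 := Finset.card_filter_add_card_filter_not (s := A) (fun x => F.eval x = true)
    rw [← Nat.add_mul, e5] at e4
    calc (edges A B) ^ 2 ≤ _ := Nat.pow_le_pow_left e3 2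
      _ ≤ _ := e4
      _ = _ := by simp only [Fm.sz]; ring

lemma par_flip (x : Fin n → Bool) (i : Fin n) :
    par (Function.update x i (!(x i))) = !(par x) := by
  have hsum : (∑ j, if (Function.update x i (!(x i))) j then (1 : ZMod 2) else 0) =
      (∑ j, if x j then (1 : ZMod 2) else 0) + 1 := by
    rw [← Finset.add_sum_erase _ _ (Finset.mem_univ i),
      ← Finset.add_sum_erase univ (fun j => if x j then (1 : ZMod 2) else 0) (Finset.mem_univ i)]
    have h1 : ∑ j ∈ univ.erase i, (if (Function.update x i (!(x i))) j then (1 : ZMod 2) else 0) =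
        ∑ j ∈ univ.erase i, (if x j then (1 : ZMod 2) else 0) := by
      refine Finset.sum_congr rfl fun j hj => ?_
      rw [Function.update_of_ne (Finset.ne_of_mem_erase hj)]
    rw [h1, Function.update_self]
    have h2 : (1 : ZMod 2) + 1 = 0 := by decide
    cases x i
    · simp only [Bool.not_false, if_true]
      simp [add_comm]
    · simp only [Bool.not_true, if_true]
      rw [add_right_comm, h2]
      simp
  unfold par
  rw [hsum]
  have h3 : ∀ z : ZMod 2, decide (z + 1 = 1) = !decide (z = 1) := by decide
  exact h3 _

/-- the formula size of the parity function -/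
theorem par_bound (F : Fm n) (hF : ∀ x, F.eval x = par x) : n ^ 2 ≤ F.sz + 1 := by
  classical
  rcases Nat.eq_zero_or_pos n with h0 | hn
  · subst h0; simp
  have hk := khr F (univ.filter fun x => par x = true) (univ.filter fun x => ¬ par x = true)
    (fun x hx => by rw [hF x]; exact (Finset.mem_filter.mp hx).2)
    (fun x hx => by rw [hF x]; simpa using (Finset.mem_filter.mp hx).2)
  obtain ⟨A, hA⟩ : ∃ A : Finset (Fin n → Bool), A = univ.filter fun x => par x = true := ⟨_, rfl⟩
  obtain ⟨B, hB⟩ : ∃ B : Finset (Fin n → Bool), B = univ.filter fun x => ¬ par x = true :=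
    ⟨_, rfl⟩
  rw [← hA, ← hB] at hk
  have mA : ∀ x, x ∈ A ↔ par x = true := fun x => by rw [hA]; simp
  have mB : ∀ x, x ∈ B ↔ ¬ par x = true := fun x => by rw [hB]; simp
  have flipinj : ∀ (i : Fin n) (x y : Fin n → Bool),
      Function.update x i (!(x i)) = Function.update y i (!(y i)) → x = y := by
    intro i x y h
    funext j
    by_cases hj : j = i
    · have h3 := congrFun h i
      rw [Function.update_self, Function.update_self] at h3
      rw [hj]
      exact Bool.not_inj h3
    · have h3 := congrFun h j
      rw [Function.update_of_ne hj, Function.update_of_ne hj] at h3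
      exact h3
  have hE : A.card * n ≤ edges A B := by
    have h1 : (A ×ˢ (univ : Finset (Fin n))).card = A.card * n := by
      rw [Finset.card_product, Finset.card_univ, Fintype.card_fin]
    rw [← h1]
    unfold edges
    refine Finset.card_le_card_of_injOn
      (fun p : (Fin n → Bool) × Fin n => (p.1, Function.update p.1 p.2 (!(p.1 p.2)))) ?_ ?_
    · intro p hp
      simp only [Finset.coe_product, Set.mem_prod, Finset.mem_coe] at hp
      simp only [Finset.coe_filter, Finset.mem_product, Set.mem_setOf_eq]
      refine ⟨⟨hp.1, ?_⟩, p.2, rfl⟩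
      rw [mB, par_flip, (mA p.1).mp hp.1]
      simp
    · intro p _ q _ hpq
      have e1 : p.1 = q.1 := (Prod.ext_iff.mp hpq).1
      have e2 : Function.update p.1 p.2 (!(p.1 p.2)) = Function.update q.1 q.2 (!(q.1 q.2)) :=
        (Prod.ext_iff.mp hpq).2
      refine Prod.ext e1 ?_
      rw [← e1] at e2
      by_contra hne
      have h3 := congrFun e2 p.2
      rw [Function.update_self, Function.update_of_ne hne] at h3
      cases hx : p.1 p.2 <;> rw [hx] at h3 <;> exact Bool.noConfusion h3
  have hBA : B.card ≤ A.card := by
    refine Finset.card_le_card_of_injOn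
      (fun x => Function.update x ⟨0, hn⟩ (!(x ⟨0, hn⟩))) ?_ ?_
    · intro x hx
      rw [Finset.mem_coe, mB] at hx
      rw [Finset.mem_coe, mA, par_flip]
      simpa using hx
    · intro x _ y _ h
      exact flipinj _ x y h
  have hApos : 0 < A.card := by
    have h2 : A.card + B.card = 2 ^ n := by
      have := Finset.card_filter_add_card_filter_not (s := (univ : Finset (Fin n → Bool)))
        (fun x => par x = true)
      rw [hA, hB, this, Finset.card_univ, Fintype.card_fun, Fintype.card_bool, Fintype.card_fin]
    have h3 : 0 < 2 ^ n := by positivity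
    omega
  have h4 : (A.card * n) ^ 2 ≤ (F.sz + 1) * (A.card * A.card) :=
    calc (A.card * n) ^ 2 ≤ (edges A B) ^ 2 := Nat.pow_le_pow_left hE 2
      _ ≤ (F.sz + 1) * (A.card * B.card) := hk
      _ ≤ (F.sz + 1) * (A.card * A.card) :=
        Nat.mul_le_mul_left _ (Nat.mul_le_mul_left _ hBA)
  have h5 : n ^ 2 * (A.card * A.card) ≤ (F.sz + 1) * (A.card * A.card) := by
    calc n ^ 2 * (A.card * A.card) = (A.card * n) ^ 2 := by ring
      _ ≤ _ := h4
  exact Nat.le_of_mul_le_mul_right h5 (Nat.mul_pos hApos hApos)

end Pool.Agent.H416R3.TD
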