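import Pool.Agent.H416R3.TD.Khr

/-!
# Lower bounds for circuits of small tree-depth
-/

set_option autoImplicit false

open Finset

namespace Pool.Agent.H416R3.TD

open Pool.Agent.H540R2

variable {n : ℕ}

lemma or4 (B : Bool → Bool → Bool) :
    ((B true true || B true false) || (B false true || B false false)) = true ↔
      ∃ a b : Bool, B a b = true := by
  constructor
  · intro h
    simp only [Bool.or_eq_true] at h
    rcases h with (h | h) | (h | h)
    · exact ⟨true, true, h⟩
    · exact ⟨true, false, h⟩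
    · exact ⟨false, true, h⟩
    · exact ⟨false, false, h⟩
  · rintro ⟨a, b, h⟩
    cases a <;> cases b <;> simp [h]

open Classical in
lemma delete_sz4 (C : Circuit n) (req : ℕ → St → Prop) (A U : Finset ℕ) (g : ℕ) (σ : ℕ → St)
    (hgU : g ∉ U) (hgA : g ∉ A) (m : ℕ)
    (h : ∀ s, Sz (FF C req (insert g A) U (Function.update σ g s)) m) :
    Sz (FF C req A (insert g U) σ) (4 * m + 15) := by
  have h1 := fun s => piece_sz C req A U g σ s m (h s)
  have h2 := Sz.or2 (fun a => Sz.or2 (fun b => h1 (fn (C.gate g) a b, a, b)))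
  refine (h2.mono (by omega)).congr fun x => ?_
  have h3 := or4 (fun a b => decide (Loc C req x g (fn (C.gate g) a b, a, b) ∧
      Cst C A g σ (fn (C.gate g) a b, a, b)) &&
      FF C req (insert g A) U (Function.update σ g (fn (C.gate g) a b, a, b)) x)
  rw [Bool.eq_iff_iff, FF_delete C req A U g σ hgU hgA x]
  refine h3.trans ?_
  constructor
  · rintro ⟨a, b, h⟩
    rw [Bool.and_eq_true, decide_eq_true_eq] at h
    exact ⟨_, h.1, h.2⟩
  · rintro ⟨⟨v, a, b⟩, hL, hF⟩
    have hv : v = fn (C.gate g) a b := hL.1.1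
    refine ⟨a, b, ?_⟩
    rw [Bool.and_eq_true, decide_eq_true_eq, ← hv]
    exact ⟨hL, hF⟩

/-- the size of the formula -/
theorem FF_sz4 (C : Circuit n) (req : ℕ → St → Prop) (U : Finset ℕ) (d : ℕ)
    (h : TreeDepth C U d) : ∀ (A : Finset ℕ) (σ : ℕ → St), Disjoint A U →
    ∃ m, Sz (FF C req A U σ) m ∧ (U = ∅ → m = 0) ∧ (U.Nonempty → m + 1 ≤ 4 * 4 ^ d * U.card) := by
  induction h with
  | empty d =>
    intro A σ _
    refine ⟨0, (Sz.const true 0).congr fun x => (FF_empty C req A σ x).symm, fun _ => rfl,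
      fun h => absurd h Finset.not_nonempty_empty⟩
  | union U V d _ _ hUV hJ ihU ihV =>
    intro A σ hA
    have hAU : Disjoint A U := hA.mono_right Finset.subset_union_left
    have hAV : Disjoint A V := hA.mono_right Finset.subset_union_right
    obtain ⟨m1, f1, e1, b1⟩ := ihU A σ hAU
    obtain ⟨m2, f2, e2, b2⟩ := ihV A σ hAV
    rcases U.eq_empty_or_nonempty with hU | hU
    · subst hU
      rw [Finset.empty_union]
      exact ⟨m2, f2, e2, b2⟩
    · rcases V.eq_empty_or_nonempty with hV | hV
      · subst hV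
        rw [Finset.union_empty]
        exact ⟨m1, f1, e1, b1⟩
      · refine ⟨m1 + m2 + 1, (f1.and f2).congr fun x => (FF_union C req A U V σ hUV hA hJ x).symm,
          ?_, ?_⟩
        · intro h
          exact absurd h (Finset.Nonempty.ne_empty (hU.mono Finset.subset_union_left))
        · intro _
          have h1 := b1 hU
          have h2 := b2 hV
          rw [Finset.card_union_of_disjoint hUV, Nat.mul_add]
          omega
  | delete U d g hgU _ ih =>
    intro A σ hA
    have hgA : g ∉ A := fun h => Finset.disjoint_left.mp hA h (Finset.mem_insert_self _ _)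
    have hAU : Disjoint (insert g A) U := by
      rw [Finset.disjoint_insert_left]
      exact ⟨hgU, hA.mono_right (Finset.subset_insert _ _)⟩
    have hpow : 1 ≤ 4 ^ d := Nat.one_le_pow _ _ (by norm_num)
    rcases U.eq_empty_or_nonempty with hU | hU
    · have h0 : ∀ s, Sz (FF C req (insert g A) U (Function.update σ g s)) 0 := by
        intro s
        obtain ⟨m, f, e, _⟩ := ih (insert g A) (Function.update σ g s) hAU
        rw [e hU] at f
        exact f
      refine ⟨15, (delete_sz4 C req A U g σ hgU hgA 0 h0).mono (by omega), ?_, ?_⟩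
      · intro h
        exact absurd h (Finset.insert_ne_empty _ _)
      · intro _
        rw [Finset.card_insert_of_notMem hgU, hU, Finset.card_empty, pow_succ]
        omega
    · have h0 : ∀ s, Sz (FF C req (insert g A) U (Function.update σ g s))
          (4 * 4 ^ d * U.card - 1) := by
        intro s
        obtain ⟨m, f, _, b⟩ := ih (insert g A) (Function.update σ g s) hAU
        exact f.mono (by have := b hU; omega)
      refine ⟨4 * (4 * 4 ^ d * U.card - 1) + 15, delete_sz4 C req A U g σ hgU hgA _ h0, ?_, ?_⟩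
      · intro h
        exact absurd h (Finset.insert_ne_empty _ _)
      · intro _
        have hc : 1 ≤ U.card := Finset.card_pos.mpr hU
        have h3 : 1 ≤ 4 * 4 ^ d * U.card := by nlinarith
        rw [Finset.card_insert_of_notMem hgU, pow_succ]
        have h4 : 4 * (4 ^ d * 4) * (U.card + 1) = 4 * (4 * 4 ^ d * U.card) + 16 * 4 ^ d := by ring
        rw [h4]
        omega

/-- circuits of tree-depth `d` with `S` gates have formulas with less than `4 ^ (d + 1) * S`
gates -/
theorem main_sz4 (C : Circuit n) (S d : ℕ) (hS1 : 1 ≤ S) (hS : C.size ≤ S)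
    (h : TreeDepth C (range C.size) d) :
    ∃ F : Fm n, F.sz + 1 ≤ 4 ^ (d + 1) * S ∧ ∀ x, F.eval x = C.eval x := by
  have hpow : 1 ≤ 4 ^ (d + 1) * S :=
    Nat.mul_pos (Nat.one_le_pow _ _ (by norm_num)) hS1
  cases hout : C.out with
  | var k =>
    refine ⟨.lit k true, by simpa [Fm.sz] using hpow, fun x => ?_⟩
    unfold Circuit.eval; rw [hout]
    simp [Fm.eval, Node.eval]
  | const b =>
    refine ⟨.const b, by simpa [Fm.sz] using hpow, fun x => ?_⟩
    unfold Circuit.eval; rw [hout]
    simp [Fm.eval, Node.eval]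
  | gate o =>
    have ho : o < C.size := C.out_lt o (by rw [hout]; simp [Node.wires])
    obtain ⟨m, ⟨F, f1, f2⟩, _, b⟩ := FF_sz4 C (fun i s => i = o → s.1 = true) (range C.size) d h ∅
      (fun _ => (true, true, true)) (Finset.disjoint_empty_left _)
    have hne : (range C.size).Nonempty := ⟨o, Finset.mem_range.mpr ho⟩
    have hb := b hne
    rw [Finset.card_range] at hb
    have hle : 4 * 4 ^ d * C.size ≤ 4 * 4 ^ d * S := Nat.mul_le_mul_left _ hS
    have e : 4 ^ (d + 1) * S = 4 * 4 ^ d * S := by ring
    refine ⟨F, by omega, fun x => ?_⟩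
    rw [f2 x, correct C o ho x]
    unfold Circuit.eval
    rw [hout]
    rfl

/-- the bound of Khrapchenko -/
theorem khr_circuit (C : Circuit n) (S d : ℕ) (hS1 : 1 ≤ S) (hS : C.size ≤ S)
    (h : TreeDepth C (range C.size) d) (A B : Finset (Fin n → Bool))
    (hA : ∀ x ∈ A, C.eval x = true) (hB : ∀ x ∈ B, C.eval x = false) :
    (edges A B) ^ 2 ≤ 4 ^ (d + 1) * S * (A.card * B.card) := by
  obtain ⟨F, f1, f2⟩ := main_sz4 C S d hS1 hS h
  have h1 := khr F A B (fun x hx => by rw [f2 x]; exact hA x hx)
    (fun x hx => by rw [f2 x]; exact hB x hx)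
  exact h1.trans (Nat.mul_le_mul_right _ f1)

theorem par_circuit (C : Circuit n) (S d : ℕ) (hS1 : 1 ≤ S) (hS : C.size ≤ S)
    (h : TreeDepth C (range C.size) d) (hC : ∀ x, C.eval x = par x) :
    n ^ 2 ≤ 4 ^ (d + 1) * S := by
  obtain ⟨F, f1, f2⟩ := main_sz4 C S d hS1 hS h
  exact (par_bound F fun x => (f2 x).trans (hC x)).trans f1

end Pool.Agent.H416R3.TD
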