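import Pool.Agent.H416R3.TD.Defs
import Pool.Agent.H540R2.Fm
import Pool.Agent.H540R2.Build

/-!
# Circuits of small tree-depth have small formulas
-/

set_option autoImplicit false

open Finset

namespace Pool.Agent.H416R3.TD

open Pool.Agent.H540R2

variable {n : ℕ}

def op1 : Gate n → Node n
  | .and a _ => a
  | .or a _ => a
  | .not a => a

def op2 : Gate n → Node n
  | .and _ b => b
  | .or _ b => b
  | .not a => a

def fn : Gate n → Bool → Bool → Bool
  | .and _ _ => fun p q => p && q
  | .or _ _ => fun p q => p || q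
  | .not _ => fun p _ => !p

lemma eval_fn (g : Gate n) (x : Fin n → Bool) (v : ℕ → Bool) :
    g.eval x v = fn g ((op1 g).eval x v) ((op2 g).eval x v) := by
  cases g <;> rfl

lemma op1_wires {g : Gate n} {j : ℕ} (h : (op1 g).wires j ≠ 0) : g.wires j ≠ 0 := by
  cases g <;> simp only [op1, Gate.wires] at * <;> omega

lemma op2_wires {g : Gate n} {j : ℕ} (h : (op2 g).wires j ≠ 0) : g.wires j ≠ 0 := by
  cases g <;> simp only [op2, Gate.wires] at * <;> omega

lemma wires_eq {a : Node n} {j : ℕ} (h : a.wires j ≠ 0) : a = .gate j := by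
  cases a with
  | var i => exact absurd rfl h
  | const b => exact absurd rfl h
  | gate i =>
    simp only [Node.wires] at h
    by_cases hij : i = j
    · rw [hij]
    · simp [hij] at h

abbrev St := Bool × Bool × Bool

def srcOK (x : Fin n → Bool) : Node n → Bool → Bool
  | .var k, β => x k == β
  | .const c, β => c == β
  | .gate _, _ => true

lemma srcOK_sz (a : Node n) (β : Bool) : Sz (fun x : Fin n → Bool => srcOK x a β) 0 := by
  cases a with
  | var k => exact ⟨.lit k β, le_rfl, fun x => rfl⟩
  | const c => exact ⟨.const (c == β), le_rfl, fun x => rfl⟩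
  | gate j => exact ⟨.const true, le_rfl, fun x => rfl⟩

def Loc (C : Circuit n) (req : ℕ → St → Prop) (x : Fin n → Bool) (i : ℕ) (s : St) : Prop :=
  s.1 = fn (C.gate i) s.2.1 s.2.2 ∧ srcOK x (op1 (C.gate i)) s.2.1 = true ∧
    srcOK x (op2 (C.gate i)) s.2.2 = true ∧ req i s

def Wr (C : Circuit n) (i j : ℕ) (si sj : St) : Prop :=
  ((op1 (C.gate i)).wires j ≠ 0 → si.2.1 = sj.1) ∧
    ((op2 (C.gate i)).wires j ≠ 0 → si.2.2 = sj.1)

def OK (C : Circuit n) (req : ℕ → St → Prop) (x : Fin n → Bool) (A U : Finset ℕ)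
    (τ : ℕ → St) : Prop :=
  (∀ i ∈ U, Loc C req x i (τ i)) ∧
    ∀ i ∈ U, ∀ j ∈ U ∪ A, Wr C i j (τ i) (τ j) ∧ Wr C j i (τ j) (τ i)

open Classical in
noncomputable def FF (C : Circuit n) (req : ℕ → St → Prop) (A U : Finset ℕ) (σ : ℕ → St) :
    BF n :=
  fun x => decide (∃ τ : ℕ → St, (∀ i ∈ A, τ i = σ i) ∧ OK C req x A U τ)

lemma FF_iff (C : Circuit n) (req : ℕ → St → Prop) (A U : Finset ℕ) (σ : ℕ → St)
    (x : Fin n → Bool) : FF C req A U σ x = true ↔
      ∃ τ : ℕ → St, (∀ i ∈ A, τ i = σ i) ∧ OK C req x A U τ := by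
  unfold FF
  simp

lemma Sz.or2 {f : Bool → BF n} {s : ℕ} (h : ∀ b, Sz (f b) s) :
    Sz (fun x => f true x || f false x) (2 * s + 1) :=
  ((h true).or (h false)).mono (by omega)

lemma Wr_of_not {C : Circuit n} {i j : ℕ} (h : ¬ Joined C i j) (si sj : St) :
    Wr C i j si sj ∧ Wr C j i sj si := by
  unfold Joined at h
  push Not at h
  refine ⟨⟨fun h1 => absurd h.1 (op1_wires h1), fun h1 => absurd h.1 (op2_wires h1)⟩,
    ⟨fun h1 => absurd h.2 (op1_wires h1), fun h1 => absurd h.2 (op2_wires h1)⟩⟩

/-- the empty set -/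
lemma FF_empty (C : Circuit n) (req : ℕ → St → Prop) (A : Finset ℕ) (σ : ℕ → St)
    (x : Fin n → Bool) : FF C req A ∅ σ x = true := by
  rw [FF_iff]
  refine ⟨σ, fun _ _ => rfl, fun i hi => absurd hi (Finset.notMem_empty i),
    fun i hi => absurd hi (Finset.notMem_empty i)⟩

/-- the union rule -/
lemma FF_union (C : Circuit n) (req : ℕ → St → Prop) (A U V : Finset ℕ) (σ : ℕ → St)
    (hUV : Disjoint U V) (hA : Disjoint A (U ∪ V)) (hJ : ∀ i ∈ U, ∀ j ∈ V, ¬ Joined C i j)
    (x : Fin n → Bool) :
    FF C req A (U ∪ V) σ x = (FF C req A U σ x && FF C req A V σ x) := by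
  rw [Bool.eq_iff_iff, Bool.and_eq_true, FF_iff, FF_iff, FF_iff]
  constructor
  · rintro ⟨τ, hτ, h1, h2⟩
    refine ⟨⟨τ, hτ, fun i hi => h1 i (Finset.mem_union_left _ hi), fun i hi j hj =>
      h2 i (Finset.mem_union_left _ hi) j ?_⟩, ⟨τ, hτ, fun i hi =>
      h1 i (Finset.mem_union_right _ hi), fun i hi j hj =>
      h2 i (Finset.mem_union_right _ hi) j ?_⟩⟩
    · rw [Finset.mem_union] at hj ⊢
      rw [Finset.mem_union]
      tauto
    · rw [Finset.mem_union] at hj ⊢
      rw [Finset.mem_union]
      tauto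
  · rintro ⟨⟨τ1, hτ1, h1, h2⟩, ⟨τ2, hτ2, h3, h4⟩⟩
    have hAU : ∀ i ∈ A, i ∉ U := fun i hi hU =>
      Finset.disjoint_left.mp hA hi (Finset.mem_union_left _ hU)
    have hAV : ∀ i ∈ A, i ∉ V := fun i hi hV =>
      Finset.disjoint_left.mp hA hi (Finset.mem_union_right _ hV)
    have hVU : ∀ i ∈ V, i ∉ U := fun i hi hU => Finset.disjoint_left.mp hUV hU hi
    obtain ⟨τ, hτdef⟩ : ∃ τ : ℕ → St, τ = fun i => if i ∈ U then τ1 i else
      if i ∈ V then τ2 i else σ i := ⟨_, rfl⟩
    have tU : ∀ i ∈ U, τ i = τ1 i := fun i hi => by rw [hτdef]; simp [hi]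
    have tV : ∀ i ∈ V, τ i = τ2 i := fun i hi => by rw [hτdef]; simp [hi, hVU i hi]
    have tA : ∀ i ∈ A, τ i = σ i := fun i hi => by rw [hτdef]; simp [hAU i hi, hAV i hi]
    refine ⟨τ, tA, ?_, ?_⟩
    · intro i hi
      rw [Finset.mem_union] at hi
      rcases hi with hi | hi
      · rw [tU i hi]; exact h1 i hi
      · rw [tV i hi]; exact h3 i hi
    · intro i hi j hj
      rw [Finset.mem_union] at hi hj
      rw [Finset.mem_union] at hj
      rcases hi with hi | hi
      · rcases hj with (hj | hj) | hj
        · rw [tU i hi, tU j hj]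
          exact h2 i hi j (Finset.mem_union_left _ hj)
        · exact Wr_of_not (hJ i hi j hj) _ _
        · rw [tU i hi, tA j hj, ← hτ1 j hj]
          exact h2 i hi j (Finset.mem_union_right _ hj)
      · rcases hj with (hj | hj) | hj
        · exact (Wr_of_not (hJ j hj i hi) _ _).symm
        · rw [tV i hi, tV j hj]
          exact h4 i hi j (Finset.mem_union_left _ hj)
        · rw [tV i hi, tA j hj, ← hτ2 j hj]
          exact h4 i hi j (Finset.mem_union_right _ hj)

def Cst (C : Circuit n) (A : Finset ℕ) (g : ℕ) (σ : ℕ → St) (s : St) : Prop :=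
  Wr C g g s s ∧ ∀ j ∈ A, Wr C g j s (σ j) ∧ Wr C j g (σ j) s

/-- the deletion rule -/
lemma FF_delete (C : Circuit n) (req : ℕ → St → Prop) (A U : Finset ℕ) (g : ℕ) (σ : ℕ → St)
    (hgU : g ∉ U) (hgA : g ∉ A) (x : Fin n → Bool) :
    FF C req A (insert g U) σ x = true ↔
      ∃ s : St, (Loc C req x g s ∧ Cst C A g σ s) ∧
        FF C req (insert g A) U (Function.update σ g s) x = true := by
  rw [FF_iff]
  constructor
  · rintro ⟨τ, hτ, h1, h2⟩
    refine ⟨τ g, ⟨h1 g (Finset.mem_insert_self _ _), ?_, ?_⟩, ?_⟩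
    · exact (h2 g (Finset.mem_insert_self _ _) g
        (Finset.mem_union_left _ (Finset.mem_insert_self _ _))).1
    · intro j hj
      rw [← hτ j hj]
      exact h2 g (Finset.mem_insert_self _ _) j (Finset.mem_union_right _ hj)
    · rw [FF_iff]
      refine ⟨τ, ?_, ?_, ?_⟩
      · intro i hi
        rw [Finset.mem_insert] at hi
        rcases hi with rfl | hi
        · rw [Function.update_self]
        · have hig : i ≠ g := fun h => hgA (h ▸ hi)
          rw [Function.update_of_ne hig]
          exact hτ i hi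
      · intro i hi
        exact h1 i (Finset.mem_insert_of_mem hi)
      · intro i hi j hj
        refine h2 i (Finset.mem_insert_of_mem hi) j ?_
        rw [Finset.mem_union, Finset.mem_insert] at hj ⊢
        tauto
  · rintro ⟨s, ⟨hL, hC1, hC2⟩, hF⟩
    rw [FF_iff] at hF
    obtain ⟨τ, hτ, h1, h2⟩ := hF
    have tg : τ g = s := by
      rw [hτ g (Finset.mem_insert_self _ _), Function.update_self]
    have tA : ∀ i ∈ A, τ i = σ i := by
      intro i hi
      have hig : i ≠ g := fun h => hgA (h ▸ hi)
      rw [hτ i (Finset.mem_insert_of_mem hi), Function.update_of_ne hig]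
    refine ⟨τ, tA, ?_, ?_⟩
    · intro i hi
      rw [Finset.mem_insert] at hi
      rcases hi with rfl | hi
      · rw [tg]; exact hL
      · exact h1 i hi
    · intro i hi j hj
      rw [Finset.mem_insert] at hi
      rw [Finset.mem_union, Finset.mem_insert] at hj
      rcases hi with rfl | hi
      · rcases hj with (rfl | hj) | hj
        · rw [tg]; exact ⟨hC1, hC1⟩
        · exact (h2 j hj i (Finset.mem_union_right _ (Finset.mem_insert_self _ _))).symm
        · rw [tg, tA j hj]
          exact hC2 j hj
      · refine h2 i hi j ?_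
        rw [Finset.mem_union, Finset.mem_insert]
        tauto

open Classical in
lemma piece_sz (C : Circuit n) (req : ℕ → St → Prop) (A U : Finset ℕ) (g : ℕ) (σ : ℕ → St)
    (s : St) (m : ℕ) (h : Sz (FF C req (insert g A) U (Function.update σ g s)) m) :
    Sz (fun x => decide (Loc C req x g s ∧ Cst C A g σ s) &&
      FF C req (insert g A) U (Function.update σ g s) x) (m + 3) := by
  have h1 : Sz (fun _ : Fin n → Bool => decide (s.1 = fn (C.gate g) s.2.1 s.2.2 ∧ req g s ∧
      Cst C A g σ s)) 0 := Sz.const _ 0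
  have h2 := srcOK_sz (op1 (C.gate g)) s.2.1
  have h3 := srcOK_sz (op2 (C.gate g)) s.2.2
  refine ((((h1.and h2).and h3).and h).mono (by omega)).congr fun x => ?_
  rw [Bool.eq_iff_iff]
  simp only [Bool.and_eq_true, decide_eq_true_eq, Loc]
  tauto

lemma or8 (B : Bool → Bool → Bool → Bool) :
    (((B true true true || B true true false) || (B true false true || B true false false)) ||
      ((B false true true || B false true false) ||
        (B false false true || B false false false))) = true ↔
      ∃ s : Bool × Bool × Bool, B s.1 s.2.1 s.2.2 = true := by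
  constructor
  · intro h
    simp only [Bool.or_eq_true] at h
    rcases h with ((h | h) | (h | h)) | ((h | h) | (h | h))
    · exact ⟨(true, true, true), h⟩
    · exact ⟨(true, true, false), h⟩
    · exact ⟨(true, false, true), h⟩
    · exact ⟨(true, false, false), h⟩
    · exact ⟨(false, true, true), h⟩
    · exact ⟨(false, true, false), h⟩
    · exact ⟨(false, false, true), h⟩
    · exact ⟨(false, false, false), h⟩
  · rintro ⟨⟨a, b, c⟩, h⟩
    have h' : B a b c = true := h
    cases a <;> cases b <;> cases c <;> simp [h']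

open Classical in
lemma delete_sz (C : Circuit n) (req : ℕ → St → Prop) (A U : Finset ℕ) (g : ℕ) (σ : ℕ → St)
    (hgU : g ∉ U) (hgA : g ∉ A) (m : ℕ)
    (h : ∀ s, Sz (FF C req (insert g A) U (Function.update σ g s)) m) :
    Sz (FF C req A (insert g U) σ) (8 * m + 31) := by
  have h1 := fun s => piece_sz C req A U g σ s m (h s)
  have h2 := Sz.or2 (fun a => Sz.or2 (fun b => Sz.or2 (fun c => h1 (a, b, c))))
  refine (h2.mono (by omega)).congr fun x => ?_
  have h3 := or8 (fun a b c => decide (Loc C req x g (a, b, c) ∧ Cst C A g σ (a, b, c)) &&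
      FF C req (insert g A) U (Function.update σ g (a, b, c)) x)
  rw [Bool.eq_iff_iff, FF_delete C req A U g σ hgU hgA x]
  refine h3.trans (exists_congr fun s => ?_)
  rw [Bool.and_eq_true, decide_eq_true_eq]

/-- the size of the formula -/
theorem FF_sz (C : Circuit n) (req : ℕ → St → Prop) (U : Finset ℕ) (d : ℕ)
    (h : TreeDepth C U d) : ∀ (A : Finset ℕ) (σ : ℕ → St), Disjoint A U →
    ∃ m, Sz (FF C req A U σ) m ∧ (U = ∅ → m = 0) ∧ (U.Nonempty → m + 1 ≤ 4 * 8 ^ d * U.card) := by
  induction h with
  | empty d =>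
    intro A σ _
    refine ⟨0, (Sz.const true 0).congr fun x => (FF_empty C req A σ x).symm, fun _ => rfl,
      fun h => absurd h Finset.not_nonempty_empty⟩
  | union U V d _ _ hUV hJ ihU ihV =>
    intro A σ hA
    have hAU : Disjoint A U := hA.mono_right Finset.subset_union_left
    have hAV : Disjoint A V := hA.mono_right Finset.subset_union_right
    obtain ⟨m1, f1, e1, b1⟩ := ihU A σ hAU
    obtain ⟨m2, f2, e2, b2⟩ := ihV A σ hAV
    rcases U.eq_empty_or_nonempty with hU | hU
    · subst hU
      rw [Finset.empty_union]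
      exact ⟨m2, f2, e2, b2⟩
    · rcases V.eq_empty_or_nonempty with hV | hV
      · subst hV
        rw [Finset.union_empty]
        exact ⟨m1, f1, e1, b1⟩
      · refine ⟨m1 + m2 + 1, (f1.and f2).congr fun x => (FF_union C req A U V σ hUV hA hJ x).symm,
          ?_, ?_⟩
        · intro h
          exact absurd h (Finset.Nonempty.ne_empty (hU.mono Finset.subset_union_left))
        · intro _
          have h1 := b1 hU
          have h2 := b2 hV
          rw [Finset.card_union_of_disjoint hUV, Nat.mul_add]
          omega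
  | delete U d g hgU _ ih =>
    intro A σ hA
    have hgA : g ∉ A := fun h => Finset.disjoint_left.mp hA h (Finset.mem_insert_self _ _)
    have hAU : Disjoint (insert g A) U := by
      rw [Finset.disjoint_insert_left]
      exact ⟨hgU, hA.mono_right (Finset.subset_insert _ _)⟩
    have hpow : 1 ≤ 8 ^ d := Nat.one_le_pow _ _ (by norm_num)
    rcases U.eq_empty_or_nonempty with hU | hU
    · have h0 : ∀ s, Sz (FF C req (insert g A) U (Function.update σ g s)) 0 := by
        intro s
        obtain ⟨m, f, e, _⟩ := ih (insert g A) (Function.update σ g s) hAU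
        rw [e hU] at f
        exact f
      refine ⟨31, (delete_sz C req A U g σ hgU hgA 0 h0).mono (by omega), ?_, ?_⟩
      · intro h
        exact absurd h (Finset.insert_ne_empty _ _)
      · intro _
        rw [Finset.card_insert_of_notMem hgU, hU, Finset.card_empty, pow_succ]
        omega
    · have h0 : ∀ s, Sz (FF C req (insert g A) U (Function.update σ g s))
          (4 * 8 ^ d * U.card - 1) := by
        intro s
        obtain ⟨m, f, _, b⟩ := ih (insert g A) (Function.update σ g s) hAU
        exact f.mono (by have := b hU; omega)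
      refine ⟨8 * (4 * 8 ^ d * U.card - 1) + 31, delete_sz C req A U g σ hgU hgA _ h0, ?_, ?_⟩
      · intro h
        exact absurd h (Finset.insert_ne_empty _ _)
      · intro _
        have hc : 1 ≤ U.card := Finset.card_pos.mpr hU
        have h3 : 1 ≤ 4 * 8 ^ d * U.card := by nlinarith
        rw [Finset.card_insert_of_notMem hgU, pow_succ]
        have h4 : 4 * (8 ^ d * 8) * (U.card + 1) = 8 * (4 * 8 ^ d * U.card) + 32 * 8 ^ d := by ring
        rw [h4]
        omega

lemma node_val (x : Fin n → Bool) (a : Node n) {β : Bool}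
    (h1 : srcOK x a β = true) (v : ℕ → Bool) (h2 : ∀ j, a = .gate j → β = v j) :
    a.eval x v = β := by
  cases a with
  | var k => simpa [srcOK, Node.eval] using h1
  | const c => simpa [srcOK, Node.eval] using h1
  | gate j => exact (h2 j rfl).symm

/-- correctness -/
theorem correct (C : Circuit n) (o : ℕ) (ho : o < C.size) (x : Fin n → Bool) :
    FF C (fun i s => i = o → s.1 = true) ∅ (range C.size) (fun _ => (true, true, true)) x =
      C.val x o := by
  rw [Bool.eq_iff_iff, FF_iff]
  constructor
  · rintro ⟨τ, -, h1, h2⟩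
    have key : ∀ i, i < C.size → (τ i).1 = C.val x i := by
      intro i
      induction i using Nat.strong_induction_on with
      | _ i ih =>
        intro hi
        obtain ⟨l1, l2, l3, l4⟩ := h1 i (Finset.mem_range.mpr hi)
        rw [Circuit.val_gate C hi x, l1, eval_fn]
        have hw1 : ∀ j, op1 (C.gate i) = .gate j → (τ i).2.1 = C.val x j := by
          intro j hj
          have hwj : (op1 (C.gate i)).wires j ≠ 0 := by rw [hj]; simp [Node.wires]
          have hji : j < i := C.gate_lt i hi j (op1_wires hwj)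
          rw [← ih j hji (hji.trans hi)]
          exact (h2 i (Finset.mem_range.mpr hi) j (Finset.mem_union_left _
            (Finset.mem_range.mpr (hji.trans hi)))).1.1 hwj
        have hw2 : ∀ j, op2 (C.gate i) = .gate j → (τ i).2.2 = C.val x j := by
          intro j hj
          have hwj : (op2 (C.gate i)).wires j ≠ 0 := by rw [hj]; simp [Node.wires]
          have hji : j < i := C.gate_lt i hi j (op2_wires hwj)
          rw [← ih j hji (hji.trans hi)]
          exact (h2 i (Finset.mem_range.mpr hi) j (Finset.mem_union_left _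
            (Finset.mem_range.mpr (hji.trans hi)))).1.2 hwj
        rw [node_val x _ l2 (C.val x) hw1, node_val x _ l3 (C.val x) hw2]
    rw [← key o ho]
    exact (h1 o (Finset.mem_range.mpr ho)).2.2.2 rfl
  · intro hv
    refine ⟨fun i => (C.val x i, (op1 (C.gate i)).eval x (C.val x),
      (op2 (C.gate i)).eval x (C.val x)), fun i hi => absurd hi (Finset.notMem_empty i), ?_, ?_⟩
    · intro i hi
      rw [Finset.mem_range] at hi
      refine ⟨?_, ?_, ?_, ?_⟩
      · show C.val x i = _
        rw [Circuit.val_gate C hi x, eval_fn]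
      · show srcOK x _ ((op1 (C.gate i)).eval x (C.val x)) = true
        cases op1 (C.gate i) <;> simp [srcOK, Node.eval]
      · show srcOK x _ ((op2 (C.gate i)).eval x (C.val x)) = true
        cases op2 (C.gate i) <;> simp [srcOK, Node.eval]
      · intro hio
        subst hio
        exact hv
    · intro i _ j _
      refine ⟨⟨fun h => ?_, fun h => ?_⟩, ⟨fun h => ?_, fun h => ?_⟩⟩
      · show (op1 (C.gate i)).eval x (C.val x) = C.val x j
        rw [wires_eq h]; rfl
      · show (op2 (C.gate i)).eval x (C.val x) = C.val x j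
        rw [wires_eq h]; rfl
      · show (op1 (C.gate j)).eval x (C.val x) = C.val x i
        rw [wires_eq h]; rfl
      · show (op2 (C.gate j)).eval x (C.val x) = C.val x i
        rw [wires_eq h]; rfl

/-- circuits of tree-depth `d` have formulas with less than `2 ^ (3 d + log S + 4)` gates -/
theorem main_sz (C : Circuit n) (S d : ℕ) (hS : C.size ≤ S)
    (h : TreeDepth C (range C.size) d) : Sz C.eval (4 * 8 ^ d * S) := by
  cases hout : C.out with
  | var k =>
    exact ((Sz.var k 0).mono (Nat.zero_le _)).congr fun x => by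
      unfold Circuit.eval; rw [hout]; rfl
  | const b =>
    exact ((Sz.const b 0).mono (Nat.zero_le _)).congr fun x => by
      unfold Circuit.eval; rw [hout]; rfl
  | gate o =>
    have ho : o < C.size := C.out_lt o (by rw [hout]; simp [Node.wires])
    obtain ⟨m, f, _, b⟩ := FF_sz C (fun i s => i = o → s.1 = true) (range C.size) d h ∅
      (fun _ => (true, true, true)) (Finset.disjoint_empty_left _)
    have hne : (range C.size).Nonempty := ⟨o, Finset.mem_range.mpr ho⟩
    have hb := b hne
    rw [Finset.card_range] at hb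
    have hle : 4 * 8 ^ d * C.size ≤ 4 * 8 ^ d * S := Nat.mul_le_mul_left _ hS
    refine (f.mono (by omega)).congr fun x => ?_
    rw [correct C o ho x]
    unfold Circuit.eval
    rw [hout]
    rfl

/-- the main theorem -/
theorem main (C : Circuit n) (S d : ℕ) (hS2 : 2 ≤ S) (hS : C.size ≤ S)
    (h : TreeDepth C (range C.size) d) :
    ∃ C' : Circuit n, C.Equiv C' ∧ C'.depth ≤ 9 * d + 13 * Nat.log 2 S ∧
      C'.size ≤ 2 ^ (9 * d + 13 * Nat.log 2 S) := by
  have h1 := main_sz C S d hS h
  have hlog : 1 ≤ Nat.log 2 S := Nat.log_pos (by norm_num) hS2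
  have hlt : 4 * 8 ^ d * S < 2 ^ (3 * d + Nat.log 2 S + 3) := by
    have h2 : S < 2 ^ (Nat.log 2 S + 1) := Nat.lt_pow_succ_log_self (by norm_num) S
    have h3 : 2 ^ (3 * d + Nat.log 2 S + 3) = 4 * 8 ^ d * 2 ^ (Nat.log 2 S + 1) := by
      rw [show (8 : ℕ) = 2 ^ 3 by norm_num, ← pow_mul, show (4 : ℕ) = 2 ^ 2 by norm_num,
        ← pow_add, ← pow_add]
      congr 1
      ring
    rw [h3]
    exact Nat.mul_lt_mul_of_pos_left h2 (by positivity)
  obtain ⟨C', c1, c2, c3⟩ := (h1.dp hlt).toCircuit
  refine ⟨C', fun x => (c3 x).symm, by omega, ?_⟩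
  refine c2.le.trans (Nat.pow_le_pow_right (by norm_num) (by omega))

end Pool.Agent.H416R3.TD
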