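import Pool.Agent.H416R3.TD.Conv

/-!
# The question in terms of tree-depth
-/

set_option autoImplicit false

open Finset

namespace Pool.Agent.H416R3.TD

open Pool.Agent.H540R2

theorem log_class (a : ℕ) {n : ℕ} (C : Circuit n) (S : ℕ) (hS2 : 2 ≤ S) (hS : C.size ≤ S)
    (h : TreeDepth C (range C.size) (a * Nat.log 2 S)) :
    ∃ C' : Circuit n, C.Equiv C' ∧ C'.depth ≤ (9 * a + 13) * Nat.log 2 S ∧
      C'.size ≤ S ^ (9 * a + 13) := by
  obtain ⟨C', h1, h2, h3⟩ := main C S _ hS2 hS h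
  have e : 9 * (a * Nat.log 2 S) + 13 * Nat.log 2 S = (9 * a + 13) * Nat.log 2 S := by ring
  rw [e] at h2 h3
  exact ⟨C', h1, h2, h3.trans (pow_log_le S _ hS2)⟩

theorem sep_class (k : ℕ) (hk : 1 ≤ k) {n : ℕ} (C : Circuit n) (S : ℕ) (hS2 : 2 ≤ S)
    (hS : C.size ≤ S) (h : Separable C k) :
    ∃ C' : Circuit n, C.Equiv C' ∧ C'.depth ≤ (36 * k + 13) * Nat.log 2 S ∧
      C'.size ≤ S ^ (36 * k + 13) := by
  obtain ⟨C', h1, h2, h3⟩ := log_class (4 * k) C S hS2 hS (sep_depth' C k S hk hS2 hS h)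
  have e : 9 * (4 * k) + 13 = 36 * k + 13 := by ring
  rw [e] at h2 h3
  exact ⟨C', h1, h2, h3⟩

lemma half_lt_log {s : ℕ} (hs : 2 ≤ s) : (1 : ℝ) / 2 ≤ Real.log s := by
  have h1 : (0.6931471803 : ℝ) < Real.log 2 := Real.log_two_gt_d9
  have h2 : Real.log 2 ≤ Real.log s :=
    Real.log_le_log (by norm_num) (by exact_mod_cast hs)
  linarith

lemma two_pow_le {s D : ℕ} {c : ℝ} (hs : 2 ≤ s) (hc : 0 ≤ c) (hD : (D : ℝ) ≤ c * Real.log s) :
    (2 : ℝ) ^ D ≤ (s : ℝ) ^ c := by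
  have hs0 : (0 : ℝ) < s := by
    have : (0 : ℕ) < s := by omega
    exact_mod_cast this
  have hl2 : Real.log 2 ≤ 1 := by
    have := Real.log_two_lt_d9
    linarith
  have hl2' : 0 < Real.log 2 := Real.log_pos (by norm_num)
  rw [← Real.rpow_natCast, ← Real.log_le_log_iff (by positivity) (by positivity),
    Real.log_rpow (by norm_num), Real.log_rpow hs0]
  calc (D : ℝ) * Real.log 2 ≤ (D : ℝ) * 1 :=
        mul_le_mul_of_nonneg_left hl2 (Nat.cast_nonneg _)
    _ = D := mul_one _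
    _ ≤ _ := hD

/-- Q1 is equivalent to the same question with depth replaced by tree-depth. -/
theorem q1_iff :
    (∃ c : ℝ, 1 ≤ c ∧ ∀ (n : ℕ) (C : Circuit n), 2 ≤ C.size →
      ∃ C' : Circuit n, C.Equiv C' ∧ (C'.depth : ℝ) ≤ c * Real.log C.size ∧
        (C'.size : ℝ) ≤ (C.size : ℝ) ^ c) ↔
    (∃ c : ℝ, 1 ≤ c ∧ ∀ (n : ℕ) (C : Circuit n), 2 ≤ C.size →
      ∃ (C' : Circuit n) (d : ℕ), C.Equiv C' ∧ TreeDepth C' (range C'.size) d ∧
        (d : ℝ) ≤ c * Real.log C.size ∧ (C'.size : ℝ) ≤ (C.size : ℝ) ^ c) := by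
  constructor
  · rintro ⟨c, hc, H⟩
    refine ⟨c + 2, by linarith, fun n C hC => ?_⟩
    obtain ⟨C1, e1, d1, -⟩ := H n C hC
    obtain ⟨C2, e2, -, s2, t2⟩ := shallow C1
    have hl := half_lt_log hC
    have hD : ((C1.depth + 1 : ℕ) : ℝ) ≤ (c + 2) * Real.log C.size := by
      push_cast
      nlinarith
    refine ⟨C2, C1.depth + 1, fun x => (e1 x).trans (e2 x), t2, hD, ?_⟩
    have h1 : (C2.size : ℝ) ≤ (2 : ℝ) ^ (C1.depth + 1) := by
      have := s2.le
      exact_mod_cast this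
    exact h1.trans (two_pow_le hC (by linarith) hD)
  · rintro ⟨c, hc, H⟩
    refine ⟨61 * c, by linarith, fun n C hC => ?_⟩
    obtain ⟨C1, d, e1, t1, hd, s1⟩ := H n C hC
    obtain ⟨C2, e2, d2, s2⟩ := main C1 (C1.size + 2) d (by omega) (by omega) t1
    have hl := half_lt_log hC
    have hS0 : (0 : ℝ) < C.size := by
      have : (0 : ℕ) < C.size := by omega
      exact_mod_cast this
    have hS2 : (2 : ℝ) ≤ C.size := by exact_mod_cast hC
    have hlog : ((Nat.log 2 (C1.size + 2) : ℕ) : ℝ) ≤ 2 * (c + 1) * Real.log C.size := by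
      have h1 : ((Nat.log 2 (C1.size + 2) : ℕ) : ℝ) * Real.log 2 ≤
          Real.log ((C1.size + 2 : ℕ) : ℝ) := by
        rw [← Real.log_pow]
        refine Real.log_le_log (by positivity) ?_
        have := Nat.pow_log_le_self 2 (x := C1.size + 2) (by omega)
        exact_mod_cast this
      have h2 : ((C1.size + 2 : ℕ) : ℝ) ≤ (C.size : ℝ) ^ (c + 1) := by
        rw [Real.rpow_add hS0, Real.rpow_one]
        push_cast
        have h3 : (C.size : ℝ) ≤ (C.size : ℝ) ^ c := by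
          calc (C.size : ℝ) = (C.size : ℝ) ^ (1 : ℝ) := (Real.rpow_one _).symm
            _ ≤ _ := Real.rpow_le_rpow_of_exponent_le (by linarith) hc
        nlinarith
      have h3 : Real.log ((C1.size + 2 : ℕ) : ℝ) ≤ (c + 1) * Real.log C.size := by
        rw [← Real.log_rpow hS0]
        exact Real.log_le_log (by positivity) h2
      have h4 : (1 : ℝ) / 2 ≤ Real.log 2 := by
        have := Real.log_two_gt_d9
        linarith
      have h5 : (0 : ℝ) ≤ (Nat.log 2 (C1.size + 2) : ℕ) := Nat.cast_nonneg _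
      nlinarith
    have hD : ((9 * d + 13 * Nat.log 2 (C1.size + 2) : ℕ) : ℝ) ≤ 61 * c * Real.log C.size := by
      push_cast
      nlinarith
    refine ⟨C2, fun x => (e1 x).trans (e2 x), ?_, ?_⟩
    · have h1 : (C2.depth : ℝ) ≤ ((9 * d + 13 * Nat.log 2 (C1.size + 2) : ℕ) : ℝ) := by
        exact_mod_cast d2
      exact h1.trans hD
    · have h1 : (C2.size : ℝ) ≤ (2 : ℝ) ^ (9 * d + 13 * Nat.log 2 (C1.size + 2)) := by
        exact_mod_cast s2
      exact h1.trans (two_pow_le hC (by linarith) hD)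

end Pool.Agent.H416R3.TD
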