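import Pool.Agent.H416R3.TD.Main

/-!
# Balanced separators and tree-depth
-/

set_option autoImplicit false

open Finset

namespace Pool.Agent.H416R3.TD

open Pool.Agent.H540R2

variable {n : ℕ}

lemma TreeDepth.mono {C : Circuit n} {U : Finset ℕ} {d : ℕ} (h : TreeDepth C U d) :
    ∀ e, d ≤ e → TreeDepth C U e := by
  induction h with
  | empty d => exact fun e _ => TreeDepth.empty e
  | union U V d _ _ hUV hJ ih1 ih2 =>
    exact fun e he => TreeDepth.union U V e (ih1 e he) (ih2 e he) hUV hJ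
  | delete U d g hg _ ih =>
    intro e he
    obtain ⟨e', rfl⟩ : ∃ e', e = e' + 1 := ⟨e - 1, by omega⟩
    exact TreeDepth.delete U e' g hg (ih e' (by omega))

lemma TreeDepth.insertMany {C : Circuit n} (X : Finset ℕ) {U : Finset ℕ} {d : ℕ}
    (h : TreeDepth C U d) : Disjoint X U → TreeDepth C (X ∪ U) (d + X.card) := by
  induction X using Finset.induction_on with
  | empty =>
    intro _
    rw [Finset.empty_union]
    exact h
  | insert g X hg ih =>
    intro hd
    rw [Finset.disjoint_insert_left] at hd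
    have h1 := ih hd.2
    have h2 : g ∉ X ∪ U := by
      rw [Finset.mem_union]
      push Not
      exact ⟨hg, hd.1⟩
    rw [Finset.insert_union, Finset.card_insert_of_notMem hg, ← Nat.add_assoc]
    exact TreeDepth.delete _ _ g h2 h1

/-- every set of at least two gates has a balanced separator with at most `k` gates -/
def Separable (C : Circuit n) (k : ℕ) : Prop :=
  ∀ U : Finset ℕ, U ⊆ range C.size → 2 ≤ U.card →
    ∃ X V W : Finset ℕ, U = X ∪ (V ∪ W) ∧ Disjoint X (V ∪ W) ∧ Disjoint V W ∧ X.card ≤ k ∧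
      3 * V.card ≤ 2 * U.card ∧ 3 * W.card ≤ 2 * U.card ∧ ∀ i ∈ V, ∀ j ∈ W, ¬ Joined C i j

lemma sep_depth (C : Circuit n) (k : ℕ) (hk : 1 ≤ k) (h : Separable C k) :
    ∀ (t : ℕ) (U : Finset ℕ), U ⊆ range C.size → U.card * 2 ^ t < 3 ^ t →
      TreeDepth C U (k * t) := by
  intro t
  induction t with
  | zero =>
    intro U _ hU
    have h0 : U = ∅ := by
      rw [← Finset.card_eq_zero]
      simpa using hU
    rw [h0]
    exact TreeDepth.empty _
  | succ t ih =>
    intro U hUs hU
    by_cases h2 : 2 ≤ U.card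
    · obtain ⟨X, V, W, hE, hXd, hVW, hX, hV, hW, hJ⟩ := h U hUs h2
      have hlt : ∀ Y : Finset ℕ, 3 * Y.card ≤ 2 * U.card → Y.card * 2 ^ t < 3 ^ t := by
        intro Y hY
        have h3 : 3 * (Y.card * 2 ^ t) < 3 * 3 ^ t := by
          calc 3 * (Y.card * 2 ^ t) = (3 * Y.card) * 2 ^ t := by ring
            _ ≤ (2 * U.card) * 2 ^ t := Nat.mul_le_mul_right _ hY
            _ = U.card * 2 ^ (t + 1) := by ring
            _ < 3 ^ (t + 1) := hU
            _ = 3 * 3 ^ t := by ring
        omega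
      have hVs : V ⊆ range C.size := fun i hi => hUs (by
        rw [hE, Finset.mem_union, Finset.mem_union]; exact Or.inr (Or.inl hi))
      have hWs : W ⊆ range C.size := fun i hi => hUs (by
        rw [hE, Finset.mem_union, Finset.mem_union]; exact Or.inr (Or.inr hi))
      have h4 := TreeDepth.union V W (k * t) (ih V hVs (hlt V hV)) (ih W hWs (hlt W hW)) hVW hJ
      have h5 := TreeDepth.insertMany X h4 hXd
      rw [← hE] at h5
      exact h5.mono _ (by rw [Nat.mul_succ]; omega)
    · have hk1 : 1 ≤ k * (t + 1) := Nat.one_le_iff_ne_zero.mpr (by positivity)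
      rcases U.eq_empty_or_nonempty with h0 | h0
      · rw [h0]
        exact TreeDepth.empty _
      · have hc : U.card = 1 := by
          have := Finset.card_pos.mpr h0
          omega
        obtain ⟨g, hg⟩ := Finset.card_eq_one.mp hc
        rw [hg, ← insert_empty_eq]
        exact (TreeDepth.delete ∅ 0 g (Finset.notMem_empty g) (TreeDepth.empty 0)).mono _ hk1

lemma sep_depth' (C : Circuit n) (k S : ℕ) (hk : 1 ≤ k) (hS2 : 2 ≤ S) (hS : C.size ≤ S)
    (h : Separable C k) : TreeDepth C (range C.size) (4 * k * Nat.log 2 S) := by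
  have hlog : 1 ≤ Nat.log 2 S := Nat.log_pos (by norm_num) hS2
  obtain ⟨L, hL⟩ : ∃ L, L = Nat.log 2 S := ⟨_, rfl⟩
  have h1 : S < 2 ^ (L + 1) := by rw [hL]; exact Nat.lt_pow_succ_log_self (by norm_num) S
  have h2 : (range C.size).card * 2 ^ (2 * (L + 1)) < 3 ^ (2 * (L + 1)) := by
    rw [Finset.card_range, pow_mul, pow_mul]
    calc C.size * (2 ^ 2) ^ (L + 1) < 2 ^ (L + 1) * (2 ^ 2) ^ (L + 1) :=
          Nat.mul_lt_mul_of_pos_right (lt_of_le_of_lt hS h1) (by positivity)
      _ = 8 ^ (L + 1) := by rw [← mul_pow]; norm_num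
      _ ≤ (3 ^ 2) ^ (L + 1) := Nat.pow_le_pow_left (by norm_num) _
  refine (sep_depth C k hk h _ _ subset_rfl h2).mono _ ?_
  rw [← hL] at hlog ⊢
  nlinarith

lemma pow_log_le (S c : ℕ) (hS2 : 2 ≤ S) : 2 ^ (c * Nat.log 2 S) ≤ S ^ c := by
  rw [mul_comm, pow_mul]
  exact Nat.pow_le_pow_left (Nat.pow_log_le_self 2 (by omega)) c

end Pool.Agent.H416R3.TD
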